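import Pool.Agent.Y856.Metric.Base

/-! The error terms of the prime number theorem for progressions in the `p`-norm over the residues. -/

set_option autoImplicit false

namespace Pool.Agent.V7H6.LP

open Finset
open Pool.Agent.Y856
open Pool.Agent.H300R2.WEH

/-- the reduced residues modulo `q` -/
def red (q : ℕ) : Finset ℕ := (range q).filter (fun a => a.Coprime q)

/-- the maximum over the lengths `y ≤ x` -/
noncomputable def D (x q a : ℕ) : ℝ :=
  (range (x + 1)).sup' ⟨0, mem_range.2 (Nat.succ_pos x)⟩ (fun y => dev y q a)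

/-- the `p`-norm over the residues -/
noncomputable def Lp (p : ℝ) (x q : ℕ) : ℝ :=
  ((∑ a ∈ red q, D x q a ^ p) / (Nat.totient q : ℝ)) ^ (1 / p)

lemma D_ex (x q a : ℕ) : ∃ y, y ≤ x ∧ D x q a = dev y q a := by
  obtain ⟨y, hy, h⟩ := Finset.exists_mem_eq_sup' (⟨0, mem_range.2 (Nat.succ_pos x)⟩ : (range (x + 1)).Nonempty)
    (fun y => dev y q a)
  exact ⟨y, by have := mem_range.1 hy; omega, h⟩

lemma D_nonneg (x q a : ℕ) : 0 ≤ D x q a := by
  obtain ⟨y, _, h⟩ := D_ex x q a
  rw [h]; exact dev_nonneg _ _ _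

lemma D_triv (x q a : ℕ) (hq : 1 ≤ q) (hqx : q ≤ x) : D x q a ≤ 2 * x / (Nat.totient q : ℝ) := by
  obtain ⟨y, hy, h⟩ := D_ex x q a
  rw [h]; exact dev_triv x y q a hy hq hqx

lemma card_red (q : ℕ) : (red q).card = Nat.totient q := by
  unfold red
  rw [Nat.totient_eq_card_coprime]
  congr 1
  apply filter_congr
  intro a _
  exact Nat.coprime_comm

lemma two_pow (q : ℕ) (hq : 1 ≤ q) : (q : ℝ) ≤ 2 ^ q.primeFactors.card * (Nat.totient q : ℝ) := by
  have h1 := Nat.totient_eq_mul_prod_factors q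
  have h2 : (Nat.totient q : ℝ) = q * ∏ p ∈ q.primeFactors, (1 - (p : ℝ)⁻¹) := by
    have : ((Nat.totient q : ℚ) : ℝ) = ((q * ∏ p ∈ q.primeFactors, (1 - (p : ℚ)⁻¹) : ℚ) : ℝ) := by rw [h1]
    push_cast at this
    exact this
  have h3 : (1 / 2 : ℝ) ^ q.primeFactors.card ≤ ∏ p ∈ q.primeFactors, (1 - (p : ℝ)⁻¹) := by
    rw [← prod_const]
    apply prod_le_prod
    · intro p _; norm_num
    · intro p hp
      have h4 : (2 : ℝ) ≤ p := by exact_mod_cast (Nat.prime_of_mem_primeFactors hp).two_le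
      have h5 : (p : ℝ)⁻¹ ≤ 2⁻¹ := by
        apply inv_anti₀ (by norm_num) h4
      linarith
  have hq0 : (0 : ℝ) ≤ q := Nat.cast_nonneg q
  rw [h2]
  calc (q : ℝ) = 2 ^ q.primeFactors.card * (q * (1 / 2 : ℝ) ^ q.primeFactors.card) := by
        rw [mul_left_comm, ← mul_pow]; norm_num
    _ ≤ _ := by gcongr

/-- the maximum over all residues outside the exceptional ones -/
lemma outside (U : ℕ) : ∃ (B x0 : ℕ), ∀ N : ℕ, x0 ≤ N → ∃ (E : ℕ → Finset ℕ) (m : ℕ → ℝ),
    (∀ q, 1 ≤ q → ((E q).card : ℝ) ≤ Real.log N ^ B * (q : ℝ) ^ 2 / N) ∧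
    (∀ q, 0 ≤ m q) ∧ (∀ q, ∀ a ∈ red q, a ∉ E q → D N q a ≤ m q) ∧
    ∀ Q, Q ≤ N → ∑ q ∈ Icc 1 Q, m q ≤ N / Real.log N ^ U := by
  classical
  obtain ⟨B, x0, h⟩ := scale U
  refine ⟨B, x0, fun N hN => ?_⟩
  obtain ⟨E, hE, hs⟩ := h N hN
  have hch : ∀ q, (red q \ E q).Nonempty → ∃ a ∈ red q \ E q, ∀ b ∈ red q \ E q, D N q b ≤ D N q a :=
    fun q hq => exists_max_image _ _ hq
  choose! a ha hmax using hch
  choose y hy hDy using fun q b => D_ex N q b
  refine ⟨E, fun q => if (red q \ E q).Nonempty then D N q (a q) else 0, hE, ?_, ?_, ?_⟩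
  · intro q
    beta_reduce
    split_ifs
    · exact D_nonneg _ _ _
    · exact le_rfl
  · intro q b hb hbE
    have hne : (red q \ E q).Nonempty := ⟨b, mem_sdiff.2 ⟨hb, hbE⟩⟩
    beta_reduce
    rw [if_pos hne]
    exact hmax q hne b (mem_sdiff.2 ⟨hb, hbE⟩)
  · intro Q hQ
    rw [← sum_filter]
    have h1 := hs (fun q => y q (a q)) (fun q => hy q (a q)) a
      ((Icc 1 Q).filter (fun q => (red q \ E q).Nonempty))
      ((filter_subset _ _).trans (Icc_subset_Icc le_rfl hQ))
      (by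
        intro q hq
        have h2 := ha q (mem_filter.1 hq).2
        rw [mem_sdiff] at h2
        have h3 := mem_filter.1 h2.1
        exact ⟨mem_range.1 h3.1, h3.2⟩)
    have h2 : ((Icc 1 Q).filter (fun q => (red q \ E q).Nonempty)).filter (fun q => a q ∈ E q) = ∅ := by
      rw [filter_eq_empty_iff]
      intro q hq hqE
      exact (mem_sdiff.1 (ha q (mem_filter.1 hq).2)).2 hqE
    rw [h2, sum_empty, add_zero] at h1
    refine le_trans (le_of_eq ?_) h1
    exact sum_congr rfl (fun q _ => hDy q (a q))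

/-- **the `p`-norms** -/
theorem main (U : ℕ) : ∃ (B x0 : ℕ), ∀ N : ℕ, x0 ≤ N → ∀ Q : ℕ, 1 ≤ Q → ∀ p : ℝ, 1 ≤ p →
    p * (B * Real.log (Real.log N)) ≤ Real.log (N / Q) →
    ∑ q ∈ Icc 1 Q, Lp p N q ≤ N / Real.log N ^ U := by
  obtain ⟨c, hc⟩ := sum_log 2 (by norm_num)
  obtain ⟨B, x1, h1⟩ := outside (U + 1)
  obtain ⟨K, hK⟩ : ∃ K : ℕ, K = B + c + U + 2 := ⟨_, rfl⟩
  refine ⟨K, max x1 8, fun N hN Q hQ p hp hpQ => ?_⟩
  have hx1 : x1 ≤ N := (le_max_left _ _).trans hN
  have hN8 : 8 ≤ N := (le_max_right _ _).trans hN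
  have hN8r : (8 : ℝ) ≤ N := by exact_mod_cast hN8
  have hN0 : (0 : ℝ) < N := by linarith
  have hlog : 2 ≤ Real.log N := by
    have h1 : Real.log 8 ≤ Real.log N := Real.log_le_log (by norm_num) hN8r
    have h2 : Real.log 8 = 3 * Real.log 2 := by
      rw [show (8 : ℝ) = 2 ^ 3 by norm_num, Real.log_pow]; norm_num
    have := Real.log_two_gt_d9
    linarith
  have hlog0 : 0 < Real.log N := by linarith
  have hll : 0 < Real.log (Real.log N) := Real.log_pos (by linarith)
  have hp0 : 0 < p := by linarith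
  have hQ0 : (0 : ℝ) < Q := by exact_mod_cast hQ
  have hNQ0 : (0 : ℝ) < N / Q := by positivity
  have hK0 : (0 : ℝ) ≤ K := Nat.cast_nonneg K
  have hNQ : Q ≤ N := by
    have h2 : 0 ≤ Real.log (N / Q) := le_trans (by positivity) hpQ
    have h3 : 1 ≤ (N : ℝ) / Q := by
      by_contra hcon
      push Not at hcon
      have := Real.log_neg hNQ0 hcon
      linarith
    rw [le_div_iff₀ hQ0, one_mul] at h3
    exact_mod_cast h3
  obtain ⟨E, m, hE, hm0, hm, hsum⟩ := h1 N hx1
  obtain ⟨ρ, hρ⟩ : ∃ ρ : ℝ, ρ = Real.log N ^ B * (Q / N) := ⟨_, rfl⟩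
  have hρ0 : 0 < ρ := by rw [hρ]; positivity
  -- the bound for one modulus
  have hone : ∀ q ∈ Icc 1 Q, Lp p N q ≤ m q + ρ ^ (1 / p) * (2 * N) * (2 ^ q.primeFactors.card / (Nat.totient q : ℝ)) := by
    intro q hq
    rw [mem_Icc] at hq
    have hφ1 : (1 : ℝ) ≤ Nat.totient q := by exact_mod_cast Nat.totient_pos.mpr (by omega)
    have hφ0 : (0 : ℝ) < Nat.totient q := by linarith
    have hqN : q ≤ N := hq.2.trans hNQ
    have hq0 : (0 : ℝ) < q := by exact_mod_cast hq.1
    obtain ⟨T, hT⟩ : ∃ T : ℝ, T = 2 * N / (Nat.totient q : ℝ) := ⟨_, rfl⟩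
    have hT0 : 0 ≤ T := by rw [hT]; positivity
    have h2 : ∑ a ∈ red q, D N q a ^ p ≤ (Nat.totient q : ℝ) * m q ^ p + ((E q).card : ℝ) * T ^ p := by
      classical
      rw [← sum_filter_add_sum_filter_not (red q) (fun a => a ∉ E q)]
      apply add_le_add
      · calc ∑ a ∈ (red q).filter (fun a => a ∉ E q), D N q a ^ p
            ≤ ∑ a ∈ (red q).filter (fun a => a ∉ E q), m q ^ p := by
              apply sum_le_sum
              intro a ha
              rw [mem_filter] at ha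
              exact Real.rpow_le_rpow (D_nonneg _ _ _) (hm q a ha.1 ha.2) hp0.le
          _ = (((red q).filter (fun a => a ∉ E q)).card : ℝ) * m q ^ p := by
              rw [sum_const, nsmul_eq_mul]
          _ ≤ _ := by
              apply mul_le_mul_of_nonneg_right _ (Real.rpow_nonneg (hm0 q) p)
              have : ((red q).filter (fun a => a ∉ E q)).card ≤ Nat.totient q := by
                rw [← card_red]; exact card_filter_le _ _
              exact_mod_cast this
      · calc ∑ a ∈ (red q).filter (fun a => ¬ a ∉ E q), D N q a ^ p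
            ≤ ∑ a ∈ (red q).filter (fun a => ¬ a ∉ E q), T ^ p := by
              apply sum_le_sum
              intro a ha
              rw [hT]
              exact Real.rpow_le_rpow (D_nonneg _ _ _) (D_triv N q a hq.1 hqN) hp0.le
          _ = (((red q).filter (fun a => ¬ a ∉ E q)).card : ℝ) * T ^ p := by
              rw [sum_const, nsmul_eq_mul]
          _ ≤ _ := by
              apply mul_le_mul_of_nonneg_right _ (Real.rpow_nonneg hT0 p)
              have : ((red q).filter (fun a => ¬ a ∉ E q)).card ≤ (E q).card := by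
                apply card_le_card
                intro a ha
                rw [mem_filter, not_not] at ha
                exact ha.2
              exact_mod_cast this
    obtain ⟨w, hw⟩ : ∃ w : ℝ, w = (2 : ℝ) ^ q.primeFactors.card := ⟨_, rfl⟩
    have hw1 : 1 ≤ w := by rw [hw]; exact one_le_pow₀ (by norm_num)
    have h3 : ((E q).card : ℝ) / (Nat.totient q : ℝ) ≤ ρ * w := by
      rw [div_le_iff₀ hφ0]
      have h4 := two_pow q hq.1
      rw [← hw] at h4
      have h5 : (q : ℝ) ≤ Q := by exact_mod_cast hq.2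
      calc ((E q).card : ℝ) ≤ Real.log N ^ B * (q : ℝ) ^ 2 / N := hE q hq.1
        _ = Real.log N ^ B * (q / N) * q := by ring
        _ ≤ Real.log N ^ B * (Q / N) * (w * Nat.totient q) := by gcongr
        _ = ρ * w * Nat.totient q := by rw [hρ]; ring
    have h4 : (∑ a ∈ red q, D N q a ^ p) / (Nat.totient q : ℝ) ≤ (m q + (ρ * w) ^ (1 / p) * T) ^ p := by
      calc (∑ a ∈ red q, D N q a ^ p) / (Nat.totient q : ℝ)
          ≤ ((Nat.totient q : ℝ) * m q ^ p + ((E q).card : ℝ) * T ^ p) / (Nat.totient q : ℝ) := by gcongr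
        _ = m q ^ p + ((E q).card : ℝ) / (Nat.totient q : ℝ) * T ^ p := by
            rw [add_div, mul_div_cancel_left₀ _ hφ0.ne', mul_div_right_comm]
        _ ≤ m q ^ p + (ρ * w) * T ^ p := by
            have : 0 ≤ T ^ p := Real.rpow_nonneg hT0 p
            gcongr
        _ = m q ^ p + ((ρ * w) ^ (1 / p) * T) ^ p := by
            rw [Real.mul_rpow (Real.rpow_nonneg (by positivity) _) hT0, ← Real.rpow_mul (by positivity),
              one_div, inv_mul_cancel₀ hp0.ne', Real.rpow_one]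
        _ ≤ _ := Real.add_rpow_le_rpow_add (hm0 q) (by positivity) hp
    have h5 : Lp p N q ≤ m q + (ρ * w) ^ (1 / p) * T := by
      unfold Lp
      have h6 : 0 ≤ m q + (ρ * w) ^ (1 / p) * T := by
        have := hm0 q
        positivity
      calc ((∑ a ∈ red q, D N q a ^ p) / (Nat.totient q : ℝ)) ^ (1 / p)
          ≤ ((m q + (ρ * w) ^ (1 / p) * T) ^ p) ^ (1 / p) := by
            apply Real.rpow_le_rpow _ h4 (by positivity)
            apply div_nonneg _ hφ0.le
            exact sum_nonneg (fun a _ => Real.rpow_nonneg (D_nonneg _ _ _) p)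
        _ = _ := by
            rw [← Real.rpow_mul h6, one_div, mul_inv_cancel₀ hp0.ne', Real.rpow_one]
    refine h5.trans ?_
    have h6 : (ρ * w) ^ (1 / p) ≤ ρ ^ (1 / p) * w := by
      rw [Real.mul_rpow hρ0.le (by linarith)]
      apply mul_le_mul_of_nonneg_left _ (by positivity)
      calc w ^ (1 / p) ≤ w ^ (1 : ℝ) := by
            apply Real.rpow_le_rpow_of_exponent_le hw1
            rw [div_le_one hp0]; exact hp
        _ = w := Real.rpow_one w
    calc m q + (ρ * w) ^ (1 / p) * T ≤ m q + ρ ^ (1 / p) * w * T := by gcongr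
      _ = _ := by rw [hT, hw]; ring
  have hρp : ρ ^ (1 / p) ≤ 1 / Real.log N ^ (c + U + 2) := by
    rw [Real.rpow_def_of_pos hρ0]
    have h2 : Real.log ρ = B * Real.log (Real.log N) - Real.log (N / Q) := by
      rw [hρ, Real.log_mul (by positivity) (by positivity), Real.log_pow, Real.log_div hQ0.ne' hN0.ne',
        Real.log_div hN0.ne' hQ0.ne']
      ring
    have h3 : Real.log ρ * (1 / p) ≤ -((c + U + 2 : ℕ) * Real.log (Real.log N)) := by
      rw [mul_one_div, div_le_iff₀ hp0, h2]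
      have h4 : (B : ℝ) * Real.log (Real.log N) ≤ p * (B * Real.log (Real.log N)) := by
        have : 0 ≤ (B : ℝ) * Real.log (Real.log N) := by positivity
        nlinarith
      have h5 : (K : ℝ) = B + (c + U + 2 : ℕ) := by rw [hK]; push_cast; ring
      rw [h5] at hpQ
      nlinarith
    calc Real.exp (Real.log ρ * (1 / p)) ≤ Real.exp (-((c + U + 2 : ℕ) * Real.log (Real.log N))) :=
          Real.exp_le_exp.2 h3
      _ = _ := by
          rw [Real.exp_neg, ← Real.log_pow, Real.exp_log (by positivity), one_div]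
  refine (sum_le_sum hone).trans ?_
  rw [sum_add_distrib, ← mul_sum]
  have h2 : ∑ q ∈ Icc 1 Q, (2 : ℝ) ^ q.primeFactors.card / (Nat.totient q : ℝ) ≤ Real.log N ^ c := by
    refine le_trans ?_ (hc N hN8)
    exact sum_le_sum_of_subset_of_nonneg (Icc_subset_Icc le_rfl hNQ) (fun q _ _ => by positivity)
  have h3 : ρ ^ (1 / p) * (2 * N) * ∑ q ∈ Icc 1 Q, (2 : ℝ) ^ q.primeFactors.card / (Nat.totient q : ℝ) ≤
      N / Real.log N ^ (U + 1) := by
    calc ρ ^ (1 / p) * (2 * N) * ∑ q ∈ Icc 1 Q, (2 : ℝ) ^ q.primeFactors.card / (Nat.totient q : ℝ)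
        ≤ 1 / Real.log N ^ (c + U + 2) * (2 * N) * Real.log N ^ c := by
          apply mul_le_mul _ h2 (sum_nonneg (fun q _ => by positivity)) (by positivity)
          exact mul_le_mul_of_nonneg_right hρp (by positivity)
      _ = (2 / Real.log N) * (N / Real.log N ^ (U + 1)) := by
          rw [show c + U + 2 = c + (U + 1) + 1 by ring, pow_add, pow_add, pow_one]
          field_simp
      _ ≤ 1 * (N / Real.log N ^ (U + 1)) := by
          apply mul_le_mul_of_nonneg_right _ (by positivity)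
          rw [div_le_one hlog0]; exact hlog
      _ = _ := one_mul _
  have h4 := hsum Q hNQ
  have h5 : (N : ℝ) / Real.log N ^ (U + 1) + N / Real.log N ^ (U + 1) ≤ N / Real.log N ^ U := by
    have : (N : ℝ) / Real.log N ^ (U + 1) + N / Real.log N ^ (U + 1) = (2 / Real.log N) * (N / Real.log N ^ U) := by
      rw [pow_succ]; field_simp; ring
    rw [this]
    calc (2 / Real.log N) * (N / Real.log N ^ U) ≤ 1 * (N / Real.log N ^ U) := by
          apply mul_le_mul_of_nonneg_right _ (by positivity)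
          rw [div_le_one hlog0]; exact hlog
      _ = _ := one_mul _
  linarith

/-- the norm of order `p ≥ log q` is the maximum, up to the factor `e` -/
theorem ge_max (p : ℝ) (x q : ℕ) (hq : 1 ≤ q) (hp : 1 ≤ p) (hpq : Real.log q ≤ p) (a : ℕ) (ha : a ∈ red q) :
    D x q a ≤ Real.exp 1 * Lp p x q := by
  have hp0 : 0 < p := by linarith
  have hφ1 : (1 : ℝ) ≤ Nat.totient q := by exact_mod_cast Nat.totient_pos.mpr (by omega)
  have hφ0 : (0 : ℝ) < Nat.totient q := by linarith
  have hq0 : (0 : ℝ) < q := by exact_mod_cast hq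
  have h1 : D x q a ^ p ≤ ∑ b ∈ red q, D x q b ^ p :=
    single_le_sum (f := fun b => D x q b ^ p) (fun b _ => Real.rpow_nonneg (D_nonneg _ _ _) p) ha
  have h2 : D x q a = ((D x q a) ^ p) ^ (1 / p) := by
    rw [← Real.rpow_mul (D_nonneg _ _ _), one_div, mul_inv_cancel₀ hp0.ne', Real.rpow_one]
  have hS : 0 ≤ ∑ b ∈ red q, D x q b ^ p := sum_nonneg (fun b _ => Real.rpow_nonneg (D_nonneg _ _ _) p)
  have hL : (∑ b ∈ red q, D x q b ^ p) ^ (1 / p) = (Nat.totient q : ℝ) ^ (1 / p) * Lp p x q := by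
    unfold Lp
    rw [← Real.mul_rpow hφ0.le (div_nonneg hS hφ0.le), mul_div_cancel₀ _ hφ0.ne']
  have hL0 : 0 ≤ Lp p x q := Real.rpow_nonneg (div_nonneg hS hφ0.le) _
  have hφp : (Nat.totient q : ℝ) ^ (1 / p) ≤ Real.exp 1 := by
    rw [Real.rpow_def_of_pos hφ0]
    apply Real.exp_le_exp.2
    rw [mul_one_div, div_le_one hp0]
    refine le_trans (Real.log_le_log hφ0 ?_) hpq
    exact_mod_cast Nat.totient_le q
  have h3 : ((D x q a) ^ p) ^ (1 / p) ≤ (∑ b ∈ red q, D x q b ^ p) ^ (1 / p) :=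
    Real.rpow_le_rpow (Real.rpow_nonneg (D_nonneg _ _ _) p) h1 (one_div_nonneg.2 hp0.le)
  rw [← h2] at h3
  rw [hL] at h3
  exact h3.trans (mul_le_mul_of_nonneg_right hφp hL0)

end Pool.Agent.V7H6.LP
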